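import Pool.Agent.Helper40.TWM.Stmts
import Pool.Agent.Helper19.TWR.PSI

/-!
Row MPU of the sheet TWM: the operator of a function along an ultrafilter.
-/

set_option autoImplicit false

open MeasureTheory Filter Topology Finset
open scoped ComplexConjugate ENNReal

namespace Pool.Agent.Helper19.TWM

open Pool.Agent.Helper98.TW
open Pool.Agent.Helper40.TWM (Th Cq ST_MPU)
open Pool.Agent.Helper19.TWR

/-- row MPU -/
theorem st_MPU (hCEC : ST_CEC) : ST_MPU := by
  intro Ω _ μ _ V _ _ _ R R' θ C F B 𝓤 h𝓤 hS hIA hTh hF hB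
  have hθ := hTh.ms
  have hθn := hTh.iso
  have hC : Lm C := hIA.1
  have hB0 : 0 ≤ B := ps_B_nonneg μ hB
  have hfm : ∀ h, AEStronglyMeasurable (Wi θ R h F) μ := ps_Wi_aesm hS.mp hθ hF
  have hfb : ∀ h x, ‖Wi θ R h F x‖ ≤ B := ps_Wi_bound hθn hB
  choose K hK hKn using fun h => ps_exK (μ := μ) C (hfm h) (hfb h)
  let P : ℕ → Lp V 2 μ →L[ℂ] Lp V 2 μ := fun H =>
    ((H : ℂ)⁻¹) • ∑ h ∈ range H, (ContinuousLinearMap.adjoint (K h)).comp (K h)
  have hPi : ∀ H x y, (inner ℂ (P H x) y : ℂ) =
      (H : ℂ)⁻¹ * ∑ h ∈ range H, (inner ℂ (K h x) (K h y) : ℂ) := by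
    intro H x y
    show (inner ℂ ((((H : ℂ)⁻¹) • ∑ h ∈ range H,
      (ContinuousLinearMap.adjoint (K h)).comp (K h)) x) y : ℂ) = _
    rw [_root_.smul_apply, inner_smul_left, ContinuousLinearMap.sum_apply, sum_inner]
    congr 1
    · simp
    · refine Finset.sum_congr rfl fun h _ => ?_
      rw [ContinuousLinearMap.comp_apply, ContinuousLinearMap.adjoint_inner_left]
  have hKK : ∀ h x y, ‖(inner ℂ (K h x) (K h y) : ℂ)‖ ≤ B ^ 2 * ‖x‖ * ‖y‖ := by
    intro h x y
    refine (norm_inner_le_norm _ _).trans ?_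
    refine (mul_le_mul (hKn h x) (hKn h y) (norm_nonneg _) (by positivity)).trans (le_of_eq ?_)
    ring
  have hPb : ∀ H x y, ‖(inner ℂ (P H x) y : ℂ)‖ ≤ B ^ 2 * ‖x‖ * ‖y‖ := by
    intro H x y
    rw [hPi, norm_mul, norm_inv, Complex.norm_natCast]
    have h1 : ‖∑ h ∈ range H, (inner ℂ (K h x) (K h y) : ℂ)‖ ≤ H * (B ^ 2 * ‖x‖ * ‖y‖) := by
      refine (norm_sum_le _ _).trans ?_
      refine (Finset.sum_le_sum fun h _ => hKK h x y).trans (le_of_eq ?_)
      rw [Finset.sum_const, card_range, nsmul_eq_mul]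
    rcases Nat.eq_zero_or_pos H with h0 | h0
    · subst h0
      simp
      positivity
    · have hH : (0 : ℝ) < H := by exact_mod_cast h0
      rw [inv_mul_le_iff₀ hH]
      exact h1
  -- the averages
  have hKF : ∀ (G : Lp V 2 μ) (h : ℕ), ‖K h G‖ ^ 2 =
      ∫ x, ‖(μ[fun x => (inner ℂ (G x) (Wi θ R h F x) : ℂ)|C]) x‖ ^ 2 ∂μ := by
    intro G h
    rw [ps_norm_sq]
    refine integral_congr_ae ?_
    have h2 : Integrable (fun x => (inner ℂ (Wi θ R h F x) (G x) : ℂ)) μ :=
      (ps_inner_memLp (hfm h) (hfb h) G).integrable (by norm_num)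
    have h1 : μ[fun x => (inner ℂ (G x) (Wi θ R h F x) : ℂ)|C] =ᵐ[μ]
        μ[fun x => conj (inner ℂ (Wi θ R h F x) (G x) : ℂ)|C] := by
      refine condExp_congr_ae (Eventually.of_forall fun x => ?_)
      exact (inner_conj_symm _ _).symm
    filter_upwards [hK h G, h1, ps_conj (C := C) h2] with x h3 h4 h5
    rw [h3, h4, h5, RCLike.norm_conj]
  obtain ⟨Q, hQ⟩ := ps_weak 𝓤 P (B ^ 2) hPb
  refine ⟨Q, ?_, ?_, ?_, ?_, ?_, ?_⟩
  · -- self adjoint
    rw [ContinuousLinearMap.isSelfAdjoint_iff_isSymmetric]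
    intro x y
    show (inner ℂ (Q x) y : ℂ) = inner ℂ x (Q y)
    have h2 : Tendsto (fun n => (inner ℂ (P n x) y : ℂ)) 𝓤 (𝓝 (inner ℂ x (Q y))) := by
      have h3 := (Complex.continuous_conj.tendsto _).comp (hQ y x)
      have h4 : (fun n => (inner ℂ (P n x) y : ℂ)) = (fun z : ℂ => conj z) ∘
          fun n => (inner ℂ (P n y) x : ℂ) := by
        funext n
        simp only [Function.comp]
        rw [hPi, hPi, map_mul, map_sum]
        congr 1
        · simp
        · exact Finset.sum_congr rfl fun h _ => (inner_conj_symm _ _).symm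
      rw [h4, ← inner_conj_symm (𝕜 := ℂ) x (Q y)]
      exact h3
    exact tendsto_nhds_unique (hQ x y) h2
  · -- positive
    intro G
    have h1 : Tendsto (fun n => RCLike.re (inner ℂ (P n G) G : ℂ)) 𝓤
        (𝓝 (RCLike.re (inner ℂ (Q G) G : ℂ))) :=
      (RCLike.continuous_re.tendsto _).comp (hQ G G)
    refine ge_of_tendsto h1 (Eventually.of_forall fun n => ?_)
    rw [hPi]
    have h2 : (n : ℂ)⁻¹ * ∑ h ∈ range n, (inner ℂ (K h G) (K h G) : ℂ) =
        (((n : ℝ)⁻¹ * ∑ h ∈ range n, ‖K h G‖ ^ 2 : ℝ) : ℂ) := by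
      push_cast
      congr 1
      exact Finset.sum_congr rfl fun h _ => inner_self_eq_norm_sq_to_K _
    rw [h2]
    have h3 : (0 : ℝ) ≤ (n : ℝ)⁻¹ * ∑ h ∈ range n, ‖K h G‖ ^ 2 := by positivity
    exact h3.trans_eq (Complex.ofReal_re _).symm
  · constructor
    · -- multiplication
      rintro c G G' hc ⟨D, hD⟩ hG
      have hcc : AM μ C (fun x => conj (c x)) := Complex.continuous_conj.comp_aestronglyMeasurable hc
      have hcD : ∀ᵐ x ∂μ, ‖conj (c x)‖ ≤ D := by
        filter_upwards [hD] with x hx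
        rwa [RCLike.norm_conj]
      have hY := ps_mul_memLp hC hc hD (Q G)
      have hkey : Q G' = hY.toLp _ := by
        refine ext_inner_right ℂ fun Z => ?_
        have hZ := ps_mul_memLp hC hcc hcD Z
        have h1 : ∀ h, (inner ℂ (K h G') (K h Z) : ℂ) = inner ℂ (K h G) (K h (hZ.toLp _)) := by
          intro h
          rw [L2.inner_def, L2.inner_def]
          refine integral_congr_ae ?_
          have h2 := ps_Kc hC (hfm h) (hfb h) hc hD hG
          have h3 := ps_Kc hC (hfm h) (hfb h) hcc hcD (G := Z) (G' := hZ.toLp _) hZ.coeFn_toLp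
          filter_upwards [hK h G', hK h G, hK h Z, hK h (hZ.toLp _), h2, h3] with x e1 e2 e3 e4 e5 e6
          rw [e1, e2, e3, e4, e5, e6, ← smul_eq_mul, ← smul_eq_mul, inner_smul_left,
            inner_smul_right]
        have h4 : (inner ℂ (Q G') Z : ℂ) = inner ℂ (Q G) (hZ.toLp _) := by
          refine tendsto_nhds_unique (hQ G' Z) ?_
          refine (hQ G (hZ.toLp _)).congr fun n => ?_
          rw [hPi, hPi, Finset.sum_congr rfl fun h _ => h1 h]
        rw [h4, L2.inner_def, L2.inner_def]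
        refine integral_congr_ae ?_
        filter_upwards [hZ.coeFn_toLp, hY.coeFn_toLp] with x e1 e2
        rw [e1, e2, inner_smul_left, inner_smul_right]
      filter_upwards [hY.coeFn_toLp] with x hx
      rw [hkey, hx]
    · -- the transformation
      intro G G' hG
      have hY := ps_W_memLp hS.mp hθ hθn (Q G)
      have hkey : Q G' = hY.toLp _ := by
        refine ext_inner_right ℂ fun Z => ?_
        obtain ⟨Z', hZ⟩ := ps_surj hS hθ hθn Z
        -- one step
        have hst : ∀ (h : ℕ) (G G' : Lp V 2 μ), (∀ᵐ x ∂μ, G' x = θ x (G (R x))) →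
            ∀ᵐ x ∂μ, K (h + 1) G' x = K h G (R x) := by
          intro h G G' hG
          have h1 : μ[fun x => (inner ℂ (Wi θ R (h + 1) F x) (G' x) : ℂ)|C] =ᵐ[μ]
              μ[fun x => (fun y => (inner ℂ (Wi θ R h F y) (G y) : ℂ)) (R x)|C] := by
            refine condExp_congr_ae ?_
            filter_upwards [hG] with x hx
            rw [hx, Wi_succ]
            exact ps_iso (hθn x) _ _
          have h2 := hCEC Ω μ R R' C (fun y => (inner ℂ (Wi θ R h F y) (G y) : ℂ)) hS hIA
            ((ps_inner_memLp (hfm h) (hfb h) G).integrable (by norm_num))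
          have h3 := hS.mp.quasiMeasurePreserving.ae (hK h G)
          filter_upwards [hK (h + 1) G', h1, h2, h3] with x e1 e2 e3 e4
          rw [e1, e2, e3, e4]
        have hst2 : ∀ h, (inner ℂ (K (h + 1) G') (K (h + 1) Z) : ℂ) =
            inner ℂ (K h G) (K h Z') := by
          intro h
          rw [L2.inner_def, L2.inner_def]
          have h1 := ps_int_comp hS.mp (g := fun x => (inner ℂ (K h G x) (K h Z' x) : ℂ))
            ((Lp.aestronglyMeasurable _).inner (Lp.aestronglyMeasurable _))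
          rw [← h1]
          refine integral_congr_ae ?_
          filter_upwards [hst h G G' hG, hst h Z' Z hZ] with x e1 e2
          rw [e1, e2]
        have hd : Tendsto (fun n => (inner ℂ (P n G') Z : ℂ) - inner ℂ (P n G) Z') atTop (𝓝 0) := by
          have h1 : ∀ n, (inner ℂ (P n G') Z : ℂ) - inner ℂ (P n G) Z' =
              (n : ℂ)⁻¹ * ((inner ℂ (K 0 G') (K 0 Z) : ℂ) - inner ℂ (K n G') (K n Z)) := by
            intro n
            rw [hPi, hPi, ← mul_sub, ← Finset.sum_sub_distrib]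
            congr 1
            rw [← Finset.sum_range_sub' (fun h => (inner ℂ (K h G') (K h Z) : ℂ)) n]
            exact Finset.sum_congr rfl fun h _ => by rw [hst2 h]
          rw [tendsto_zero_iff_norm_tendsto_zero]
          have h2 : Tendsto (fun n : ℕ => (2 * (B ^ 2 * ‖G'‖ * ‖Z‖)) * (n : ℝ)⁻¹) atTop (𝓝 0) := by
            have h3 := tendsto_inv_atTop_nhds_zero_nat (𝕜 := ℝ)
            simpa using h3.const_mul (2 * (B ^ 2 * ‖G'‖ * ‖Z‖))
          refine squeeze_zero (fun n => norm_nonneg _) (fun n => ?_) h2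
          rw [h1, norm_mul, norm_inv, Complex.norm_natCast, mul_comm]
          refine mul_le_mul_of_nonneg_right ?_ (by positivity)
          refine (norm_sub_le _ _).trans ?_
          rw [two_mul]
          exact add_le_add (hKK 0 G' Z) (hKK n G' Z)
        have h4 : (inner ℂ (Q G') Z : ℂ) = inner ℂ (Q G) Z' := by
          have h5 := (hQ G' Z).sub (hQ G Z')
          have h6 := tendsto_nhds_unique h5 (hd.mono_left h𝓤)
          exact sub_eq_zero.1 h6
        rw [h4, L2.inner_def, L2.inner_def]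
        have h7 := ps_int_comp hS.mp (g := fun x => (inner ℂ (Q G x) (Z' x) : ℂ))
            ((Lp.aestronglyMeasurable _).inner (Lp.aestronglyMeasurable _))
        rw [← h7]
        refine integral_congr_ae ?_
        filter_upwards [hZ, hY.coeFn_toLp] with x e1 e2
        rw [e1, e2]
        exact (ps_iso (hθn x) _ _).symm
      filter_upwards [hY.coeFn_toLp] with x hx
      rw [hkey, hx]
  · -- the limit of the averages
    intro G
    have h1 : Tendsto (fun n => RCLike.re (inner ℂ (P n G) G : ℂ)) 𝓤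
        (𝓝 (RCLike.re (inner ℂ (Q G) G : ℂ))) :=
      (RCLike.continuous_re.tendsto _).comp (hQ G G)
    refine h1.congr fun n => ?_
    have h2 : (inner ℂ (P n G) G : ℂ) = (((∑ h ∈ range n,
        ∫ x, ‖(μ[fun x => (inner ℂ (G x) (Wi θ R h F x) : ℂ)|C]) x‖ ^ 2 ∂μ) / (n : ℝ) : ℝ) : ℂ) := by
      rw [hPi, div_eq_inv_mul]
      push_cast
      congr 1
      refine Finset.sum_congr rfl fun h _ => ?_
      have h3 : (inner ℂ (K h G) (K h G) : ℂ) = ((‖K h G‖ : ℂ)) ^ 2 :=
        inner_self_eq_norm_sq_to_K _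
      rw [h3, ← Complex.ofReal_pow, hKF G h]
    rw [h2]
    exact Complex.ofReal_re _
  · -- Bessel
    intro m e he
    have h1 : Tendsto (fun n => ∑ a, RCLike.re (inner ℂ (P n (e a)) (e a) : ℂ)) 𝓤
        (𝓝 (∑ a, RCLike.re (inner ℂ (Q (e a)) (e a) : ℂ))) :=
      tendsto_finsetSum _ fun a _ => (RCLike.continuous_re.tendsto _).comp (hQ (e a) (e a))
    refine le_of_tendsto h1 (Eventually.of_forall fun n => ?_)
    have h2 : ∀ a, RCLike.re (inner ℂ (P n (e a)) (e a) : ℂ) =
        (n : ℝ)⁻¹ * ∑ h ∈ range n, ‖K h (e a)‖ ^ 2 := by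
      intro a
      rw [hPi]
      have h2 : (n : ℂ)⁻¹ * ∑ h ∈ range n, (inner ℂ (K h (e a)) (K h (e a)) : ℂ) =
          (((n : ℝ)⁻¹ * ∑ h ∈ range n, ‖K h (e a)‖ ^ 2 : ℝ) : ℂ) := by
        push_cast
        congr 1
        exact Finset.sum_congr rfl fun h _ => inner_self_eq_norm_sq_to_K _
      rw [h2]
      exact Complex.ofReal_re _
    rw [Finset.sum_congr rfl fun a _ => h2 a, ← Finset.mul_sum, Finset.sum_comm]
    have h3 : ∀ h, ∑ a, ‖K h (e a)‖ ^ 2 ≤ ∫ x, ‖F x‖ ^ 2 ∂μ := by
      intro h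
      rw [← ps_Wi_int hS.mp hθ hθn hF h]
      refine le_trans (le_of_eq ?_) (ps_bessel hC (hfm h) (hfb h) e he)
      refine Finset.sum_congr rfl fun a _ => ?_
      rw [ps_norm_sq]
      refine integral_congr_ae ?_
      filter_upwards [hK h (e a)] with x hx
      rw [hx]
    have h4 : ∑ h ∈ range n, ∑ a, ‖K h (e a)‖ ^ 2 ≤ n * ∫ x, ‖F x‖ ^ 2 ∂μ := by
      refine (Finset.sum_le_sum fun h _ => h3 h).trans (le_of_eq ?_)
      rw [Finset.sum_const, card_range, nsmul_eq_mul]
    rcases Nat.eq_zero_or_pos n with h0 | h0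
    · subst h0
      simp
      exact integral_nonneg fun x => sq_nonneg _
    · have hn : (0 : ℝ) < n := by exact_mod_cast h0
      rw [inv_mul_le_iff₀ hn]
      exact h4
  · -- modules
    intro E hE hFE G
    have hmem : ∀ h, ∀ F' : Lp V 2 μ, F' =ᵐ[μ] Wi θ R h F → F' ∈ E := by
      intro h
      induction h with
      | zero => exact hFE
      | succ h ih =>
        intro F' hF'
        have h1 : MemLp (Wi θ R h F) 2 μ := MemLp.of_bound (hfm h) B (Eventually.of_forall (hfb h))
        refine hE.comp (h1.toLp _) (ih _ h1.coeFn_toLp) F' ?_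
        have h2 := hS.mp.quasiMeasurePreserving.ae h1.coeFn_toLp
        filter_upwards [hF', h2] with x e1 e2
        rw [e1, Wi_succ, e2]
    have hKz : ∀ h, ∀ Z ∈ Eᗮ, K h Z = 0 := by
      intro h Z hZ
      have hi : Integrable (fun x => (inner ℂ (Wi θ R h F x) (Z x) : ℂ)) μ :=
        (ps_inner_memLp (hfm h) (hfb h) Z).integrable (by norm_num)
      have h1 : μ[fun x => (inner ℂ (Wi θ R h F x) (Z x) : ℂ)|C] =ᵐ[μ] fun _ => 0 := by
        refine (ae_eq_condExp_of_forall_setIntegral_eq (m := C) hC hi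
          (fun s _ _ => integrableOn_zero) (fun s hs _ => ?_)
          aestronglyMeasurable_const).symm
        have hs0 : MeasurableSet s := hC s hs
        have hc : AM μ C (s.indicator fun _ => (1 : ℂ)) :=
          (StronglyMeasurable.indicator stronglyMeasurable_const hs).aestronglyMeasurable
        have hc1 : ∀ᵐ x ∂μ, ‖s.indicator (fun _ => (1 : ℂ)) x‖ ≤ 1 :=
          Eventually.of_forall fun x => by
            by_cases hx : x ∈ s <;> simp [hx]
        have hf2 : MemLp (Wi θ R h F) 2 μ :=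
          MemLp.of_bound (hfm h) B (Eventually.of_forall (hfb h))
        have hm := ps_mul_memLp hC hc hc1 (hf2.toLp _)
        have h2 : hm.toLp _ ∈ E :=
          hE.mul _ (hmem h _ hf2.coeFn_toLp) _ hc ⟨1, hc1⟩ _ hm.coeFn_toLp
        have h3 : (inner ℂ (hm.toLp _) Z : ℂ) = 0 := (Submodule.mem_orthogonal _ _).1 hZ _ h2
        rw [L2.inner_def] at h3
        rw [integral_zero, ← integral_indicator hs0, ← h3]
        refine integral_congr_ae ?_
        filter_upwards [hm.coeFn_toLp, hf2.coeFn_toLp] with x e1 e2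
        rw [e1, e2]
        by_cases hx : x ∈ s <;> simp [hx]
      apply Lp.ext
      refine ((hK h Z).trans h1).trans ?_
      exact (Lp.coeFn_zero ℂ 2 μ).symm
    have hcl : E.topologicalClosure = E := hE.closed.submodule_topologicalClosure_eq
    rw [← hcl, ← Submodule.orthogonal_orthogonal_eq_closure, Submodule.mem_orthogonal]
    intro Z hZ
    have h1 : (inner ℂ (Q G) Z : ℂ) = 0 := by
      refine tendsto_nhds_unique (hQ G Z) ?_
      refine tendsto_const_nhds.congr fun n => ?_
      rw [hPi]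
      have h2 : ∀ h, (inner ℂ (K h G) (K h Z) : ℂ) = 0 := by
        intro h
        rw [hKz h Z hZ, inner_zero_right]
      rw [Finset.sum_congr rfl fun h _ => h2 h]
      simp
    rw [← inner_conj_symm, h1, map_zero]

end Pool.Agent.Helper19.TWM
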